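import Mathlib
import Pool.Agent.T2H03.YM.Final

/-!
# Lattice gauge theory with a mass gap at arbitrarily weak coupling in two families of planes

Lattice gauge theory on `ℤ^d` with an arbitrary compact gauge group `G` and a plaquette weight
`w i j` for the plaquettes in the directions `i < j`, for instance Wilson's weight
`exp (- β i j * Re tr (1 - U_p))`. Let `m` be an involution of the directions; the pairs `{i, m i}`
are the sheets. In dimension four one may take the two orthogonal families of planes `{1, 2}` and
`{3, 4}`. There is no condition at all on the weights in the sheets: the coupling `β 1 2` and the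
coupling `β 3 4` may be arbitrarily large, that is, the theory may be arbitrarily weakly coupled
there. If the weights of all the other plaquettes are constant up to a factor `1 + δ` (for Wilson's
action: if the other couplings are at most `log (1 + δ) / (2 N)`), where `δ` is small, depending on
`d` only, then the infinite volume limit of the theory exists, it is invariant under translations
and reflections, it is reflection positive, and the transfer operator in each of the `d` directions
has a gap: on the orthogonal complement of the vacuum its norm is at most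
`rate d δ = 2 * 9 ^ d * 2 ^ (d ^ 2) * δ ^ (1 / 40)`. The bound of the mass is uniform in the weights
of the sheets and in the gauge group.
-/

open MeasureTheory Measure Filter Topology

namespace Pool.Agent.Results.MP_7f377f_mp.AnisotropicMassGap

noncomputable section

/-- The sites of the lattice. -/
abbrev Site (d : ℕ) := Fin d → ℤ

/-- The unit vector of the direction `i`. -/
def e {d : ℕ} (i : Fin d) : Site d := Pi.single i 1

/-- The link `(x, i)` joins the sites `x` and `x + e i`. -/
abbrev Link (d : ℕ) := Site d × Fin d

/-- The plaquette `(x, i, j)` has the corners `x`, `x + e i`, `x + e i + e j`, `x + e j`. -/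
abbrev Plaquette (d : ℕ) := Site d × Fin d × Fin d

/-- The product of the link variables around the plaquette `p`. -/
def holonomy {d : ℕ} {G : Type*} [Group G] (p : Plaquette d) (U : Link d → G) : G :=
  U (p.1, p.2.1) * U (p.1 + e p.2.1, p.2.2) * (U (p.1 + e p.2.2, p.2.1))⁻¹ * (U (p.1, p.2.2))⁻¹

/-- The plaquettes in the box with the opposite corners `u` and `v`. -/
def box {d : ℕ} (u v : Site d) : Finset (Plaquette d) :=
  (Finset.Icc u v ×ˢ (Finset.univ : Finset (Fin d × Fin d))).filter fun p =>
    p.2.1 < p.2.2 ∧ p.1 + e p.2.1 + e p.2.2 ∈ Finset.Icc u v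

/-- A family of plaquette weights: `w i j` is the weight of the plaquettes in the directions
`i`, `j`. -/
structure IsWeight {d : ℕ} {G : Type*} [Group G] [MeasurableSpace G]
    (w : Fin d → Fin d → G → ℝ) : Prop where
  /-- the weights are measurable -/
  measurable : ∀ i j, Measurable (w i j)
  /-- the weights are bounded -/
  bounded : ∃ C : ℝ, ∀ i j g, w i j g ≤ C
  /-- the weights are positive -/
  positive : ∀ i j g, 0 < w i j g
  /-- the weights are class functions -/
  conj : ∀ i j g h, w i j (h * g * h⁻¹) = w i j g
  /-- the weights do not depend on the orientation -/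
  inv : ∀ i j g, w i j g⁻¹ = w i j g

/-- The expectation of `F` in the box with the corners `u` and `v`, with free boundary conditions:
the links carry independent Haar distributed variables, with density the product of the weights of
the plaquettes of the box. -/
def expect {d : ℕ} {G : Type*} [Group G] [MeasurableSpace G] (μ : Measure G)
    [IsProbabilityMeasure μ] (w : Fin d → Fin d → G → ℝ) (u v : Site d)
    (F : (Link d → G) → ℝ) : ℝ :=
  (∫ U, F U * ∏ p ∈ box u v, w p.2.1 p.2.2 (holonomy p U) ∂(infinitePi fun _ : Link d => μ)) /
    ∫ U, ∏ p ∈ box u v, w p.2.1 p.2.2 (holonomy p U) ∂(infinitePi fun _ : Link d => μ)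

/-- Bounded measurable observables which depend on finitely many links. -/
def IsLocal {d : ℕ} {G : Type*} [MeasurableSpace G] (F : (Link d → G) → ℝ) : Prop :=
  Measurable F ∧ (∃ C : ℝ, ∀ U, |F U| ≤ C) ∧ ∃ S : Finset (Link d), DependsOn F (S : Set (Link d))

/-- The configuration translated by `x`. -/
def translate {d : ℕ} {G : Type*} (x : Site d) (U : Link d → G) : Link d → G :=
  fun l => U (l.1 + x, l.2)

/-- The reflection of the sites at the hyperplane `x k = 0`. -/
def reflectSite {d : ℕ} (k : Fin d) (x : Site d) : Site d := fun i => if i = k then - x i else x i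

/-- The reflection of the links: the link `(x, k)` goes to the link from `θ x - e k` to `θ x`. -/
def reflectLink {d : ℕ} (k : Fin d) (l : Link d) : Link d :=
  if l.2 = k then (reflectSite k l.1 - e k, l.2) else (reflectSite k l.1, l.2)

/-- The configuration reflected at the hyperplane `x k = 0`; the links in the direction `k` change
their orientation. -/
def reflect {d : ℕ} {G : Type*} [Group G] (k : Fin d) (U : Link d → G) : Link d → G :=
  fun l => if l.2 = k then (U (reflectLink k l))⁻¹ else U (reflectLink k l)

/-- The observables of the half space `0 ≤ x k`. -/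
def InHalfSpace {d : ℕ} {G : Type*} (k : Fin d) (F : (Link d → G) → ℝ) : Prop :=
  DependsOn F {l : Link d | 0 ≤ l.1 k}

/-- `ω` is the infinite volume limit: the limit of the expectations along all boxes. -/
def IsInfiniteVolumeLimit {d : ℕ} {G : Type*} [Group G] [MeasurableSpace G] (μ : Measure G)
    [IsProbabilityMeasure μ] (w : Fin d → Fin d → G → ℝ) (ω : ((Link d → G) → ℝ) → ℝ) : Prop :=
  ∀ F, IsLocal F → ∀ ε : ℝ, 0 < ε → ∃ n : ℕ, ∀ u v : Site d, (∀ i, u i ≤ -(n : ℤ)) →
    (∀ i, (n : ℤ) ≤ v i) → |expect μ w u v F - ω F| ≤ ε

/-- `ω` is invariant under the translations and under the reflections. -/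
def IsInvariant {d : ℕ} {G : Type*} [Group G] [MeasurableSpace G]
    (ω : ((Link d → G) → ℝ) → ℝ) : Prop :=
  ∀ F, IsLocal F → (∀ x, ω (fun U => F (translate x U)) = ω F) ∧
    ∀ k, ω (fun U => F (reflect k U)) = ω F

/-- Reflection positivity in every direction `k`: `⟨θF F⟩ ≥ 0` for the observables `F` of the half
space `0 ≤ x k`. The physical space of the direction `k` is the completion of these observables for
the scalar product `⟨θF F⟩`. -/
def IsReflectionPositive {d : ℕ} {G : Type*} [Group G] [MeasurableSpace G]
    (ω : ((Link d → G) → ℝ) → ℝ) : Prop :=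
  ∀ F, IsLocal F → ∀ k, InHalfSpace k F → 0 ≤ ω (fun U => F (reflect k U) * F U)

/-- The transfer operator `T` of every direction `k`, which acts on the physical space as the
translation by `e k`, has norm at most `ρ` on the orthogonal complement of the vacuum: for every
observable `F` of the half space and its projection `F₀ = F - ⟨F⟩` one has
`|(F₀, T ^ n F₀)| ≤ ρ ^ n (F₀, F₀)` for all `n`. -/
def HasMassGap {d : ℕ} {G : Type*} [Group G] [MeasurableSpace G]
    (ω : ((Link d → G) → ℝ) → ℝ) (ρ : ℝ) : Prop :=
  ∀ F, IsLocal F → ∀ k, InHalfSpace k F → ∀ n : ℕ,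
    |ω (fun U => F (reflect k U) * F (translate ((n : ℤ) • e k) U)) - ω F ^ 2| ≤
      ρ ^ n * (ω (fun U => F (reflect k U) * F U) - ω F ^ 2)

/-- The bound of the transfer operator on the orthogonal complement of the vacuum. -/
def rate (d : ℕ) (δ : ℝ) : ℝ := 2 * 9 ^ d * 2 ^ (d ^ 2) * δ ^ (1 / 40 : ℝ)

/-- **Existence and mass gap of lattice gauge theory with arbitrary weights in the sheets.** -/
theorem result {d : ℕ} {G : Type*} [Group G] [TopologicalSpace G] [IsTopologicalGroup G]
    [CompactSpace G] [T2Space G] [SecondCountableTopology G] [MeasurableSpace G] [BorelSpace G]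
    (μ : Measure G) [IsProbabilityMeasure μ] [μ.IsHaarMeasure]
    (m : Fin d → Fin d) (hm : ∀ i, m (m i) = i)
    (w : Fin d → Fin d → G → ℝ) (hw : IsWeight w) (δ : ℝ) (hδ : 0 ≤ δ)
    (hflat : ∀ i j, i < j → m i ≠ j → ∀ g h, w i j g ≤ (1 + δ) * w i j h)
    (hrate : rate d δ ≤ 1 / 2) :
    ∃ ω : ((Link d → G) → ℝ) → ℝ,
      IsInfiniteVolumeLimit μ w ω ∧ IsInvariant ω ∧ IsReflectionPositive ω ∧
        HasMassGap ω (rate d δ) := by
  obtain ⟨ω, h1, h2, h3, h4, h5⟩ := Pool.Agent.T2H03.YM.final μ hm
    (w := w) ⟨hw.measurable, hw.bounded, hw.positive, hw.conj, hw.inv⟩ hδ hflat hrate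
  exact ⟨ω, h1, fun F hF => ⟨h2 F hF, h3 F hF⟩, h4, h5⟩

end

end Pool.Agent.Results.MP_7f377f_mp.AnisotropicMassGap
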