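import Mathlib
import Pool.Agent.T2H03.YM.Haar
import Pool.Agent.T2H03.AL.Fin

/-!
# Confinement in all planes with arbitrarily weak coupling in two families of planes

Lattice gauge theory on `ℤ^d` with an arbitrary compact gauge group `G` which has a central element
`z` of prime order `ℓ`, for instance `SU(N)` or any closed group of unitary matrices which contains
a scalar matrix different from one of finite order. Every plaquette `p` has its own weight `w p`,
for instance Wilson's weight `exp (β Re tr U_p)`. Let `m` be an involution of the directions; the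
planes of the directions `i`, `m i` are called the sheets. In dimension four one may take the two
orthogonal families of planes `{1, 2}` and `{3, 4}`.

In the sheets the weights are arbitrary, the coupling may be arbitrarily weak; only the ratio
`w p (z ^ k g) / w p g` is assumed to be bounded, by an arbitrary constant `B`. For the other
plaquettes this ratio is assumed to be at most `1 + δ` with `δ ≤ δ₀ d ℓ`: they are strongly coupled
in the fundamental representation, while the part of the action which does not see the center, for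
instance `β' |tr U_p| ^ 2`, is arbitrary everywhere. The bound `δ₀ d ℓ` does not depend on `B`: it is
uniform in the weak coupling in the sheets.

Then all Wilson loops in representations in which `z` is not trivial obey the area law, in all
planes, in all finite volumes and in all their limits. For the boundary of a rectangle with the
sides `R` and `T` in the plane of the directions `i < j` the expectation is at most
`K ^ (2 (R + T) + 1) * τ i j ^ (R * T)`, where `τ i j = 1 - 1 / (2 B)` for the sheets and
`τ i j = δ / δ₀` for the other planes. For an arbitrary closed path with `n` steps it is at most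
`K ^ (n + 1)` times the product of the `τ i j ^ A i j`, where `A i j` is the number of the cells
around which the projection of the path to the plane of `i` and `j` has a winding number which is
not divisible by `ℓ`.
-/

open MeasureTheory Measure

namespace Pool.Agent.Results.MP_7f377f_mp.AreaLaw

noncomputable section

/-- The sites of the lattice. -/
abbrev Site (d : ℕ) := Fin d → ℤ

/-- The unit vector of the direction `i`. -/
def e {d : ℕ} (i : Fin d) : Site d := Pi.single i 1

/-- The link `(x, i)` joins the sites `x` and `x + e i`. -/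
abbrev Link (d : ℕ) := Site d × Fin d

/-- The plaquette `(x, i, j)` has the corners `x`, `x + e i`, `x + e i + e j`, `x + e j`. -/
abbrev Plaquette (d : ℕ) := Site d × Fin d × Fin d

/-- The product of the link variables around the plaquette `p`. -/
def holonomy {d : ℕ} {G : Type*} [Group G] (p : Plaquette d) (U : Link d → G) : G :=
  U (p.1, p.2.1) * U (p.1 + e p.2.1, p.2.2) * (U (p.1 + e p.2.2, p.2.1))⁻¹ * (U (p.1, p.2.2))⁻¹

/-- The plaquettes in the box with the opposite corners `u` and `v`. -/
def box {d : ℕ} (u v : Site d) : Finset (Plaquette d) :=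
  (Finset.Icc u v ×ˢ (Finset.univ : Finset (Fin d × Fin d))).filter fun p =>
    p.2.1 < p.2.2 ∧ p.1 + e p.2.1 + e p.2.2 ∈ Finset.Icc u v

/-- The weights of the plaquettes: positive bounded measurable functions, one for each
plaquette. -/
structure IsWeight {d : ℕ} {G : Type*} [MeasurableSpace G] (w : Plaquette d → G → ℝ) : Prop where
  measurable : ∀ p, Measurable (w p)
  bounded : ∀ p, ∃ C : ℝ, ∀ g, w p g ≤ C
  positive : ∀ p g, 0 < w p g

/-- The expectation of `F` in the box with the corners `u` and `v`, with free boundary conditions: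
the links carry independent Haar distributed variables, with density the product of the weights of
the plaquettes of the box. -/
def expect {d : ℕ} {G : Type*} [Group G] [MeasurableSpace G] (μ : Measure G)
    [IsProbabilityMeasure μ] (w : Plaquette d → G → ℝ) (u v : Site d)
    (F : (Link d → G) → ℝ) : ℝ :=
  (∫ U, F U * ∏ p ∈ box u v, w p (holonomy p U) ∂(infinitePi fun _ : Link d => μ)) /
    ∫ U, ∏ p ∈ box u v, w p (holonomy p U) ∂(infinitePi fun _ : Link d => μ)

/-- Bounded measurable observables which depend on finitely many links. -/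
def IsLocal {d : ℕ} {G : Type*} [MeasurableSpace G] (F : (Link d → G) → ℝ) : Prop :=
  Measurable F ∧ (∃ C : ℝ, ∀ U, |F U| ≤ C) ∧ ∃ S : Finset (Link d), DependsOn F (S : Set (Link d))

/-- `ω` is a limit of the theories in finite volume. -/
def IsLimitState {d : ℕ} {G : Type*} [Group G] [MeasurableSpace G] (μ : Measure G)
    [IsProbabilityMeasure μ] (w : Plaquette d → G → ℝ) (ω : ((Link d → G) → ℝ) → ℝ) : Prop :=
  ∀ F, IsLocal F → ∀ ε : ℝ, 0 < ε → ∃ u v : Site d, |expect μ w u v F - ω F| ≤ ε

/-- A path is given by its first site and the list of its steps: the step `(k, true)` goes from `x`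
to `x + e k` and the step `(k, false)` goes from `x` to `x - e k`. This is the product of the link
variables along the path. -/
def transport {d : ℕ} {G : Type*} [Group G] (U : Link d → G) : Site d → List (Fin d × Bool) → G
  | _, [] => 1
  | x, (k, true) :: γ => U (x, k) * transport U (x + e k) γ
  | x, (k, false) :: γ => (U (x - e k, k))⁻¹ * transport U (x - e k) γ

/-- The last site of the path. -/
def endpoint {d : ℕ} : Site d → List (Fin d × Bool) → Site d
  | x, [] => x
  | x, (k, true) :: γ => endpoint (x + e k) γ
  | x, (k, false) :: γ => endpoint (x - e k) γ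

/-- The sum of the values of `a` on the links of the path, with the sign `-` for the links which
are passed backwards. -/
def signedSum {d : ℕ} (a : Link d → ℤ) : Site d → List (Fin d × Bool) → ℤ
  | _, [] => 0
  | x, (k, true) :: γ => a (x, k) + signedSum a (x + e k) γ
  | x, (k, false) :: γ => - a (x - e k, k) + signedSum a (x - e k) γ

/-- The winding number of the projection of a closed path to the plane of the directions `i`, `j`
around the cell `[s.1, s.1 + 1] × [s.2, s.2 + 1]`: the number of times, counted with sign, that the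
path crosses the half line which starts at the centre of the cell and goes in the direction `i`. -/
def winding {d : ℕ} (i j : Fin d) (s : ℤ × ℤ) (x : Site d) (γ : List (Fin d × Bool)) : ℤ :=
  signedSum (fun l => if l.2 = j ∧ s.1 < l.1 i ∧ l.1 j = s.2 then 1 else 0) x γ

/-- The area modulo `ℓ` of the projection of a closed path to the plane of the directions `i`, `j`:
the number of the cells around which the winding number is not divisible by `ℓ`. -/
def area {d : ℕ} (ℓ : ℕ) (i j : Fin d) (x : Site d) (γ : List (Fin d × Bool)) : ℕ :=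
  {s : ℤ × ℤ | ¬ (ℓ : ℤ) ∣ winding i j s x γ}.ncard

/-- The boundary of the rectangle with the sides `R` and `T` in the directions `i` and `j`. -/
def rectangle {d : ℕ} (i j : Fin d) (R T : ℕ) : List (Fin d × Bool) :=
  List.replicate R (i, true) ++ (List.replicate T (j, true) ++
    (List.replicate R (i, false) ++ List.replicate T (j, false)))

/-- The constant of the perimeter. -/
def K (d ℓ : ℕ) : ℝ := (ℓ : ℝ) ^ (2 * (d * (d - 1)))

/-- The threshold for the strongly coupled plaquettes. -/
def δ₀ (d ℓ : ℕ) : ℝ := ((64 * (d + 1 : ℝ) * K d ℓ) ^ 4)⁻¹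

/-- The factors `τ i j` of the area law. -/
def τ {d : ℕ} (m : Fin d → Fin d) (ℓ : ℕ) (δ B : ℝ) (i j : Fin d) : ℝ :=
  if m i = j then 1 - 1 / (2 * B) else δ / δ₀ d ℓ

/-- The area law of the expectation `E` for the Wilson loops `f (U_γ)`. -/
structure HasAreaLaw {d : ℕ} {G : Type*} [Group G] (m : Fin d → Fin d) (ℓ : ℕ) (δ B : ℝ) (f : G → ℝ)
    (E : ((Link d → G) → ℝ) → ℝ) : Prop where
  /-- rectangles -/
  rect : ∀ (x : Site d) (i j : Fin d), i < j → ∀ R T : ℕ,
    |E fun U => f (transport U x (rectangle i j R T))| ≤
      K d ℓ ^ (2 * (R + T) + 1) * τ m ℓ δ B i j ^ (R * T)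
  /-- arbitrary closed paths -/
  loop : ∀ (x : Site d) (γ : List (Fin d × Bool)), endpoint x γ = x →
    |E fun U => f (transport U x γ)| ≤ K d ℓ ^ (γ.length + 1) *
      ∏ ij : Fin d × Fin d with ij.1 < ij.2, τ m ℓ δ B ij.1 ij.2 ^ area ℓ ij.1 ij.2 x γ

/-- **The area law in all planes, with arbitrary weights in the sheets.** -/
theorem result {d ℓ : ℕ} (hℓ : ℓ.Prime) {G : Type*} [Group G] [TopologicalSpace G]
    [IsTopologicalGroup G] [CompactSpace G] [T2Space G] [SecondCountableTopology G]
    [MeasurableSpace G] [BorelSpace G] (μ : Measure G) [IsProbabilityMeasure μ] [μ.IsHaarMeasure]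
    (z : G) (hz : z ^ ℓ = 1) (hzc : ∀ g, z * g = g * z)
    (m : Fin d → Fin d) (hm : ∀ i, m (m i) = i)
    (w : Plaquette d → G → ℝ) (hw : IsWeight w)
    (δ : ℝ) (hδ : 0 ≤ δ) (hδ₀ : δ ≤ δ₀ d ℓ)
    (hmixed : ∀ p : Plaquette d, p.2.1 < p.2.2 → m p.2.1 ≠ p.2.2 → ∀ (g : G) (k : ℕ),
      w p (z ^ k * g) ≤ (1 + δ) * w p g)
    (B : ℝ) (hB : 1 ≤ B)
    (hsheet : ∀ p : Plaquette d, p.2.1 < p.2.2 → m p.2.1 = p.2.2 → ∀ (g : G) (k : ℕ),
      w p (z ^ k * g) ≤ B * w p g)
    (f : G → ℝ) (hf : Measurable f) (hf₁ : ∀ g, |f g| ≤ 1)
    (hf₀ : ∀ g, ∑ k ∈ Finset.range ℓ, f (z ^ k * g) = 0) :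
    (∀ u v : Site d, HasAreaLaw m ℓ δ B f (expect μ w u v)) ∧
      ∀ ω : ((Link d → G) → ℝ) → ℝ, IsLimitState μ w ω → HasAreaLaw m ℓ δ B f ω := by
  have : Fact ℓ.Prime := ⟨hℓ⟩
  have hAF : Pool.Agent.T2H03.AL.AF (ZMod ℓ) d = K d ℓ := by
    unfold Pool.Agent.T2H03.AL.AF K
    rw [ZMod.card]
  have hKF : Pool.Agent.T2H03.AL.KF (ZMod ℓ) d = (δ₀ d ℓ)⁻¹ := by
    unfold Pool.Agent.T2H03.AL.KF δ₀
    rw [hAF, inv_inv]
  have hK1 : 1 ≤ K d ℓ := by
    rw [← hAF]
    exact Pool.Agent.T2H03.AL.AF_one _ d
  have hδp : 0 < δ₀ d ℓ := by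
    unfold δ₀
    have : (0 : ℝ) ≤ d := Nat.cast_nonneg d
    positivity
  have hδK : δ * Pool.Agent.T2H03.AL.KF (ZMod ℓ) d ≤ 1 := by
    rw [hKF, ← div_eq_mul_inv, div_le_one hδp]
    exact hδ₀
  have hτ : ∀ i j : Fin d, τ m ℓ δ B i j =
      if m i = j then 1 - 1 / (2 * B) else δ * Pool.Agent.T2H03.AL.KF (ZMod ℓ) d := by
    intro i j
    unfold τ
    rw [hKF, div_eq_mul_inv δ]
  have hph : ∀ (U : Link d → G) (γ : List (Fin d × Bool)) (x : Site d),
      transport U x γ = Pool.Agent.T2H03.AL.ph U x γ := by
    intro U γ
    induction γ with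
    | nil => intro x; rfl
    | cons s γ ih =>
      intro x
      obtain ⟨k, b⟩ := s
      cases b
      · show (U (x - e k, k))⁻¹ * transport U (x - e k) γ = _
        rw [ih]; rfl
      · show U (x, k) * transport U (x + e k) γ = _
        rw [ih]; rfl
  have hcs : ∀ (a : Link d → ℤ) (γ : List (Fin d × Bool)) (x : Site d),
      signedSum a x γ = Pool.Agent.T2H03.AL.cs a x γ := by
    intro a γ
    induction γ with
    | nil => intro x; rfl
    | cons s γ ih =>
      intro x
      obtain ⟨k, b⟩ := s
      cases b
      · show - a (x - e k, k) + signedSum a (x - e k) γ = _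
        rw [ih]; rfl
      · show a (x, k) + signedSum a (x + e k) γ = _
        rw [ih]; rfl
  have har : ∀ (i j : Fin d) (x : Site d) (γ : List (Fin d × Bool)),
      area ℓ i j x γ = Pool.Agent.T2H03.AL.ar ℓ i j x γ := by
    intro i j x γ
    unfold area Pool.Agent.T2H03.AL.ar winding Pool.Agent.T2H03.AL.wind
    simp only [hcs]
  have hbox : ∀ u v : Site d, HasAreaLaw m ℓ δ B f (expect μ w u v) := by
    intro u v
    refine ⟨fun x i j hij R T => ?_, fun x γ _ => ?_⟩
    · have h1 := Pool.Agent.T2H03.AL.fin_rect μ hm hz hzc w hw.measurable hw.bounded hw.positive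
        hδ hδK hB hmixed hsheet f hf hf₁ hf₀ u v x hij R T
      rw [hτ, ← hAF]
      simp only [hph]
      exact h1
    · have h1 := Pool.Agent.T2H03.AL.fin_path μ hm hz hzc w hw.measurable hw.bounded hw.positive
        hδ hδK hB hmixed hsheet f hf hf₁ hf₀ u v x γ
      simp only [hτ, har, ← hAF, hph]
      exact h1
  refine ⟨hbox, fun ω hω => ?_⟩
  have hloc : ∀ (x : Site d) (γ : List (Fin d × Bool)),
      IsLocal (fun U : Link d → G => f (transport U x γ)) := by
    intro x γ
    simp only [hph]
    refine ⟨hf.comp (Pool.Agent.T2H03.AL.ph_meas x γ), ⟨1, fun U => hf₁ _⟩,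
      Pool.Agent.T2H03.AL.lks x γ, fun U U' h => ?_⟩
    show f _ = f _
    rw [Pool.Agent.T2H03.AL.ph_congr fun l hl => h l hl]
  have hlim : ∀ (x : Site d) (γ : List (Fin d × Bool)) (M : ℝ),
      (∀ u v : Site d, |expect μ w u v fun U => f (transport U x γ)| ≤ M) →
      |ω fun U => f (transport U x γ)| ≤ M := by
    intro x γ M hM
    refine le_of_forall_pos_le_add fun ε hε => ?_
    obtain ⟨u, v, huv⟩ := hω _ (hloc x γ) ε hε
    have h1 := hM u v
    rw [abs_le] at huv h1 ⊢
    constructor <;> linarith [huv.1, huv.2, h1.1, h1.2]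
  exact ⟨fun x i j hij R T => hlim _ _ _ fun u v => (hbox u v).rect x i j hij R T,
    fun x γ hγ => hlim _ _ _ fun u v => (hbox u v).loop x γ hγ⟩

end

end Pool.Agent.Results.MP_7f377f_mp.AreaLaw
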