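import Mathlib
import Pool.Agent.T2H02.Lev.GapLev

/-!
# The spectrum of lattice Yang-Mills theory in a box at weak coupling

Wilson's lattice gauge theory in the cube `{0, …, L - 1}^D` of space, with free boundary conditions,
for a closed subgroup `G` of `U(N)` with a Lie algebra which is not zero. The transfer matrix is the
integral operator on the functions of the link variables at a fixed time which advances the time by
one lattice spacing and averages over the gauge transformations (Gauss's law). Its eigenvalue number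
`k` (in decreasing order, with multiplicity) defines the energy level number `k`.

For `β ≥ C_k L ^ (96 D + 288)` the `k`-th energy level is, up to an error `C_k / (L log β)`, the
`k`-th level of the free gluon field in the box, restricted to the colour singlets: of the
`G`-invariant vectors of the Fock space of oscillators with the frequencies
`2 arsinh (√ ∑ sin² (π m_i / (2 L)))` of the transversal lattice modes, each with one copy for
every element of a basis of the Lie algebra. In units of the inverse side of the box the levels tend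
to the levels of the free gluon field in the unit cube of the continuum, as `L → ∞`, uniformly in
such `β`. If the Lie algebra has no nonzero vector fixed by `G` then the mass gap is
`4 arsinh (√2 sin (π / (2 L)))` up to the error above.
-/

open MeasureTheory Matrix

namespace Pool.Agent.Results.MP_7f377f_mp.FiniteVolumeSpectrum

noncomputable section

/-- Square matrices. -/
abbrev Mt (N : ℕ) := Matrix (Fin N) (Fin N) ℂ

/-- The unitary group `U(N)`. -/
abbrev UU (N : ℕ) := Matrix.unitaryGroup (Fin N) ℂ

/-- The matrix of an element of a subgroup of `U(N)`. -/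
def mt {N : ℕ} {G : Subgroup (UU N)} (g : G) : Mt N := ((g : UU N) : Mt N)

/-! ### the lattice gauge theory -/

/-- The sites of the cube. -/
abbrev Site (D L : ℕ) := Fin D → Fin L

/-- The links of the cube: `(x, k)` is the link from `x` to `x + e_k`, both in the cube. -/
abbrev Link (D L : ℕ) := {e : Site D L × Fin D // (e.1 e.2 : ℕ) + 1 < L}

section lattice

variable {N D L : ℕ} {G : Subgroup (UU N)}

/-- The site `x + e_k` (and `x` if `x + e_k` is not in the cube). -/
def next (x : Site D L) (k : Fin D) : Site D L :=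
  if h : (x k : ℕ) + 1 < L then Function.update x k ⟨(x k : ℕ) + 1, h⟩ else x

/-- The variable of the link from `x` to `x + e_k` (and `1` if there is no such link). -/
def var (U : Link D L → G) (x : Site D L) (k : Fin D) : G :=
  if h : (x k : ℕ) + 1 < L then U ⟨(x, k), h⟩ else 1

/-- The plaquette at `x` in the directions `i`, `j`. -/
def plaq (U : Link D L → G) (x : Site D L) (i j : Fin D) : G :=
  var U x i * var U (next x i) j * (var U (next x j) i)⁻¹ * (var U x j)⁻¹

/-- The magnetic energy: the sum of `Re tr (1 - U_p)` over the plaquettes of the cube. -/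
def magnetic (U : Link D L → G) : ℝ := ∑ x : Site D L, ∑ i, ∑ j,
  if i < j ∧ (x i : ℕ) + 1 < L ∧ (x j : ℕ) + 1 < L then (trace (1 - mt (plaq U x i j))).re else 0

/-- The electric energy: the sum of `Re tr (1 - U_e V_e⁻¹)` over the links. -/
def electric (U V : Link D L → G) : ℝ := ∑ e, (trace (1 - mt (U e * (V e)⁻¹))).re

/-- The gauge transformation `g`. -/
def gauge (g : Site D L → G) (U : Link D L → G) : Link D L → G :=
  fun e => g e.1.1 * U e * (g (next e.1.1 e.1.2))⁻¹

variable [MeasurableSpace G]

/-- The kernel of the transfer matrix of Wilson's action. -/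
def kernel (μ : Measure G) (β : ℝ) (U V : Link D L → G) : ℝ :=
  ∫ g : Site D L → G, Real.exp (-(β * (1 / 2 * magnetic U + electric (gauge g U) V +
    1 / 2 * magnetic V))) ∂(Measure.pi fun _ => μ)

/-- The transfer matrix. -/
def transfer (μ : Measure G) (β : ℝ) (f : (Link D L → G) → ℝ) (U : Link D L → G) : ℝ :=
  ∫ V, kernel μ β U V * f V ∂(Measure.pi fun _ => μ)

/-- The scalar product of two functions of the link variables. -/
def inner (μ : Measure G) (f g : (Link D L → G) → ℝ) : ℝ :=
  ∫ U, f U * g U ∂(Measure.pi fun _ => μ)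

/-- The square of the eigenvalue number `k` of the transfer matrix, by the principle of Courant and
Fischer: the largest `s` with `‖T f‖² ≥ s ‖f‖²` on a space of continuous functions of dimension
`k + 1`. -/
def eigenvalueSq (D L : ℕ) (μ : Measure G) (β : ℝ) (k : ℕ) : ℝ :=
  sSup {s | ∃ f : Fin (k + 1) → (Link D L → G) → ℝ, (∀ i, Continuous (f i)) ∧
    (∀ i j, inner μ (f i) (f j) = if i = j then 1 else 0) ∧ ∀ a : Fin (k + 1) → ℝ,
      s * ∑ i, a i ^ 2 ≤ inner μ (transfer μ β fun U => ∑ i, a i * f i U)
        (transfer μ β fun U => ∑ i, a i * f i U)}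

/-- The energy level number `k` above the lowest one, the energy of an eigenvalue `t` of the
transfer matrix being `- log t`. -/
def energyLevel (D L : ℕ) (μ : Measure G) (β : ℝ) (k : ℕ) : ℝ :=
  1 / 2 * Real.log (eigenvalueSq D L μ β 0 / eigenvalueSq D L μ β k)

end lattice

/-! ### the Lie algebra and its representation -/

/-- `Y` is in the Lie algebra of `G`. -/
def IsLie {N : ℕ} (G : Subgroup (UU N)) (Y : Mt N) : Prop :=
  ∀ t : ℝ, ∃ g : G, mt g = NormedSpace.exp (t • Y)

/-- `X` is an orthonormal basis of the Lie algebra of `G` for the scalar product `Re tr (Y* Z)`. -/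
def IsBasis {N n : ℕ} (G : Subgroup (UU N)) (X : Fin n → Mt N) : Prop :=
  (∀ a b, (trace ((X a)ᴴ * X b)).re = if a = b then 1 else 0) ∧
    ∀ Y, IsLie G Y ↔ Y ∈ Submodule.span ℝ (Set.range X)

/-- The matrix of the adjoint action of `g` in the basis `X`. -/
def adjoint {N n : ℕ} {G : Subgroup (UU N)} (X : Fin n → Mt N) (g : G) :
    Matrix (Fin n) (Fin n) ℝ :=
  fun a b => (trace ((X a)ᴴ * (mt g * X b * (mt g)ᴴ))).re

/-! ### the colour singlets of the Fock space -/

section fock

variable {M G : Type} {n : ℕ}

/-- The energy of a monomial in the creation operators; the variable `(l, a)` is the creation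
operator of the mode `l` with the colour `a`, and `ω l` is the frequency of the mode `l`. -/
def fockEnergy (ω : M → ℝ) (d : M × Fin n →₀ ℕ) : ℝ := d.sum fun s j => (j : ℝ) * ω s.1

/-- The action on the Fock space of a matrix `A` which acts on the colour. -/
def fockAction (M : Type) {n : ℕ} (A : Matrix (Fin n) (Fin n) ℝ) :
    MvPolynomial (M × Fin n) ℂ →ₐ[ℂ] MvPolynomial (M × Fin n) ℂ :=
  MvPolynomial.aeval fun s => ∑ b, MvPolynomial.C ((A b s.2 : ℝ) : ℂ) * MvPolynomial.X (s.1, b)

/-- The vectors of the Fock space which are invariant under the group and a combination of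
monomials of energy at most `E`. -/
def singlets (ω : M → ℝ) (ρ : G → Matrix (Fin n) (Fin n) ℝ) (E : ℝ) :
    Submodule ℂ (MvPolynomial (M × Fin n) ℂ) where
  carrier := {p | (∀ d ∈ p.support, fockEnergy ω d ≤ E) ∧ ∀ g, fockAction M (ρ g) p = p}
  add_mem' := by
    classical
    rintro p q ⟨h1, h2⟩ ⟨h3, h4⟩
    refine ⟨fun d hd => ?_, fun g => by rw [map_add, h2 g, h4 g]⟩
    rcases Finset.mem_union.1 (MvPolynomial.support_add hd) with h | h
    · exact h1 d h
    · exact h3 d h
  zero_mem' := ⟨fun d hd => by simp at hd, fun g => map_zero _⟩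
  smul_mem' := by
    rintro c p ⟨h1, h2⟩
    exact ⟨fun d hd => h1 d (MvPolynomial.support_smul hd), fun g => by rw [map_smul, h2 g]⟩

/-- The energy level number `k` of the singlets, with multiplicity, starting with the number `0`. -/
def freeLevel (ω : M → ℝ) (ρ : G → Matrix (Fin n) (Fin n) ℝ) (k : ℕ) : ℝ :=
  sInf {E : ℝ | k + 1 ≤ Module.finrank ℂ (singlets ω ρ E)}

end fock

/-! ### the modes of the box -/

/-- The modes of the lattice gluon field: a momentum `m` and a direction `i` with `m i ≠ 0` which
is not the first such direction (if `r` components of `m` are not zero there are `r - 1` transversal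
modes). -/
abbrev Mode (D L : ℕ) :=
  {p : (Fin D → Fin L) × Fin D // (p.1 p.2 : ℕ) ≠ 0 ∧ ∃ j < p.2, (p.1 j : ℕ) ≠ 0}

/-- The frequency of a mode. -/
def frequency (D L : ℕ) (p : Mode D L) : ℝ :=
  2 * Real.arsinh (Real.sqrt (∑ i, Real.sin (Real.pi * (p.1.1 i : ℕ) / (2 * L)) ^ 2))

/-- The modes of the gluon field in the unit cube of the continuum. -/
abbrev ContinuumMode (D : ℕ) := {p : (Fin D → ℕ) × Fin D // p.1 p.2 ≠ 0 ∧ ∃ j < p.2, p.1 j ≠ 0}

/-- The frequency of a mode of the continuum. -/
def continuumFrequency (D : ℕ) (p : ContinuumMode D) : ℝ :=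
  Real.pi * Real.sqrt (∑ i, (p.1.1 i : ℝ) ^ 2)

/-! ### the proof -/

section proof

open Pool.Agent.H906R3.YM Pool.Agent.W793.YM Pool.Agent.TH618.YM Pool.Agent.T2H02.Gap
  Pool.Agent.T2H02.Lev
open scoped Matrix.Norms.Frobenius

set_option linter.unusedSectionVars false

variable {N D L : ℕ} {G : Subgroup (UU N)}

lemma re_trace (g : G) : (trace (1 - FiniteVolumeSpectrum.mt g)).re = en g := by
  have h1 : ‖(H906R3.YM.mt g : Mat N) - 1‖ ^ 2 =
      (trace (((H906R3.YM.mt g : Mat N) - 1)ᴴ * ((H906R3.YM.mt g : Mat N) - 1))).re := by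
    rw [norm_sq_ip]; rfl
  have h2 : (H906R3.YM.mt g : Mat N)ᴴ * H906R3.YM.mt g = 1 :=
    (Matrix.mem_unitaryGroup_iff' (A := H906R3.YM.mt g)).1 (g : UN N).2
  have h3 : (((H906R3.YM.mt g : Mat N) - 1)ᴴ * ((H906R3.YM.mt g : Mat N) - 1)) =
      (1 - H906R3.YM.mt g) + (1 - H906R3.YM.mt g)ᴴ := by
    rw [conjTranspose_sub, conjTranspose_one, conjTranspose_sub, conjTranspose_one, sub_mul,
      mul_sub, mul_sub, h2]
    simp only [mul_one, one_mul]
    abel
  unfold en dg
  rw [h1, h3, trace_add, trace_conjTranspose, Complex.add_re, Complex.star_def, Complex.conj_re]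
  show (trace (1 - H906R3.YM.mt g)).re = _
  ring

lemma var_eq (U : Link D L → G) (x : Site D L) (k : Fin D) : var U x k = lv 1 U (cst x) k := by
  unfold var lv
  by_cases h : (x k : ℕ) + 1 < L
  · rw [dif_pos h, dif_pos ⟨cst_lt x, h⟩]
    rfl
  · rw [dif_neg h, dif_neg (fun h' => h h'.2)]

lemma cst_next {x : Site D L} {k : Fin D} (h : (x k : ℕ) + 1 < L) :
    cst (next x k) = cst x + H906R3.YM.es k := by
  unfold next
  rw [dif_pos h]
  exact cst_tgt (⟨(x, k), h⟩ : Lk D L)

lemma magnetic_eq (U : Link D L → G) : magnetic U = mag U := by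
  unfold magnetic mag
  refine Finset.sum_congr rfl fun x _ => Finset.sum_congr rfl fun i _ => Finset.sum_congr rfl
    fun j _ => ?_
  by_cases h : PIn x i j
  · have h' : i < j ∧ (x i : ℕ) + 1 < L ∧ (x j : ℕ) + 1 < L := h
    rw [if_pos h, if_pos h', re_trace]
    congr 1
    unfold plaq H906R3.YM.plq
    rw [var_eq, var_eq, var_eq, var_eq, cst_next h'.2.1, cst_next h'.2.2]
  · have h' : ¬ (i < j ∧ (x i : ℕ) + 1 < L ∧ (x j : ℕ) + 1 < L) := h
    rw [if_neg h, if_neg h']

lemma electric_eq (U V : Link D L → G) : electric U V = kin U V := by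
  unfold electric kin
  exact Finset.sum_congr rfl fun e _ => re_trace _

lemma gauge_eq (g : Site D L → G) (U : Link D L → G) : gauge g U = T2H02.Gap.gt g U := by
  funext e
  unfold gauge T2H02.Gap.gt src tgt next
  rw [dif_pos e.2]

variable [CompactSpace G] [SecondCountableTopology G] [MeasurableSpace G] [BorelSpace G]
variable (μ : Measure G) [IsProbabilityMeasure μ] [μ.IsMulLeftInvariant]

lemma kernel_eq (β : ℝ) (U V : Link D L → G) : kernel μ β U V = KK μ β U V := by
  unfold kernel KK avk kk
  refine integral_congr_ae (Filter.Eventually.of_forall fun g => ?_)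
  simp only
  rw [magnetic_eq, magnetic_eq, electric_eq, gauge_eq, mag_gt]

lemma transfer_eq (β : ℝ) (f : CF (Link D L → G) (νm μ D L)) (U : Link D L → G) :
    transfer μ β f.fn U = (opT (νm μ D L) (KK μ β) (KK_cont μ β) f).fn U := by
  rw [opT_fn]
  unfold transfer
  refine integral_congr_ae (Filter.Eventually.of_forall fun V => ?_)
  simp only
  rw [kernel_eq]

lemma inner_eq (f g : CF (Link D L → G) (νm μ D L)) : FiniteVolumeSpectrum.inner μ f.fn g.fn =
    Inner.inner ℝ f g := by
  rw [inner_cf]
  rfl

lemma inner_self (f : CF (Link D L → G) (νm μ D L)) : FiniteVolumeSpectrum.inner μ f.fn f.fn =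
    ‖f‖ ^ 2 := by
  rw [inner_eq, real_inner_self_eq_norm_sq]

lemma inner_transfer (β : ℝ) (f : CF (Link D L → G) (νm μ D L)) :
    FiniteVolumeSpectrum.inner μ (transfer μ β f.fn) (transfer μ β f.fn) =
      ‖opT (νm μ D L) (KK μ β) (KK_cont μ β) f‖ ^ 2 := by
  rw [← inner_self]
  have : transfer μ β f.fn = (opT (νm μ D L) (KK μ β) (KK_cont μ β) f).fn :=
    funext fun U => transfer_eq μ β f U
  rw [this]

lemma fn_sum {n : ℕ} (a : Fin n → ℝ) (f : Fin n → CF (Link D L → G) (νm μ D L)) :
    (∑ i, a i • f i).fn = fun U => ∑ i, a i * (f i).fn U := by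
  funext U
  have h : ∀ s : Finset (Fin n), (∑ i ∈ s, a i • f i).fn U = ∑ i ∈ s, a i * (f i).fn U := by
    classical
    intro s
    induction s using Finset.induction_on with
    | empty => rfl
    | insert i s hi ih => rw [Finset.sum_insert hi, Finset.sum_insert hi, CF.fn_add, CF.fn_smul, ih]
  exact h Finset.univ

lemma eigenvalueSq_eq (β : ℝ) (k : ℕ) :
    eigenvalueSq D L μ β k = lev (opT (νm μ D L) (KK μ β) (KK_cont μ β)) k := by
  unfold eigenvalueSq lev levSet
  congr 1
  ext s
  constructor
  · rintro ⟨f, hf, h1, h2⟩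
    refine ⟨fun i => CF.mk (νm μ D L) (f i) (hf i), fun i j => ?_, fun a => ?_⟩
    · rw [← inner_eq]; exact h1 i j
    · have h3 := h2 a
      rw [← inner_transfer, fn_sum]
      exact h3
  · rintro ⟨f, h1, h2⟩
    refine ⟨fun i => (f i).fn, fun i => CF.cont _ (f i), fun i j => ?_, fun a => ?_⟩
    · rw [inner_eq]; exact h1 i j
    · have h3 := h2 a
      rw [← inner_transfer, fn_sum] at h3
      exact h3

omit [CompactSpace G] [SecondCountableTopology G] [MeasurableSpace G] [BorelSpace G] in
/-- the basis as a frame -/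
lemma exists_frame_of_basis {n : ℕ} {X : Fin n → Mt N} (hX : IsBasis G X) :
    ∃ B : Frame G n, B.X = X := by
  have h : ∀ a, IsLie G (X a) := fun a => (hX.2 (X a)).2 (Submodule.subset_span ⟨a, rfl⟩)
  have h' : ∀ a t, ∃ g : G, FiniteVolumeSpectrum.mt g = NormedSpace.exp (t • X a) := fun a t => h a t
  choose ex hex using h'
  exact ⟨⟨X, ex, hex, hX.1, fun Y hY => (hX.2 Y).1 hY⟩, rfl⟩

lemma adjoint_eq {n : ℕ} (B : Frame G n) (g : G) : adjoint B.X g = T2H02.Gap.adm B g := by
  ext i k
  show _ = Inner.inner ℝ (EuclideanSpace.single i (1 : ℝ))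
    (T2H02.Gap.adL B g (EuclideanSpace.single k (1 : ℝ)))
  rw [EuclideanSpace.inner_single_left, T2H02.Gap.adL_apply, cm_apply, mt_inv_ct]
  have h1 : lie B (EuclideanSpace.single k (1 : ℝ)) = B.X k := by
    unfold lie
    rw [Finset.sum_eq_single k]
    · simp
    · intro b _ hb
      simp [hb]
    · intro h; exact absurd (Finset.mem_univ _) h
  rw [h1]
  simp only [map_one, one_mul]
  rfl

omit [CompactSpace G] [SecondCountableTopology G] [MeasurableSpace G] [BorelSpace G] in
lemma span_isLie {n : ℕ} (hG : IsClosed (G : Set (UU N))) (B : Frame G n) {Y : Mt N}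
    (hY : Y ∈ Submodule.span ℝ (Set.range B.X)) : IsLie G Y := by
  have h : Submodule.span ℝ (Set.range B.X) ≤ lieS hG := by
    rw [Submodule.span_le]
    rintro _ ⟨a, rfl⟩
    exact fun t => ⟨B.ex a t, B.ex_eq a t⟩
  exact h hY

lemma lie_zero {n : ℕ} (B : Frame G n) (v : T2H02.Gap.En n) (h : lie B v = 0) : v = 0 := by
  have h1 : cm B (lie B v) = v := cm_lie B v
  rw [h, map_zero] at h1
  exact h1.symm

end proof

/-- **The spectrum of lattice Yang-Mills theory in a box at weak coupling.** Let `G` be a closed
subgroup of `U(N)` with a Lie algebra which is not zero, `X` an orthonormal basis of it and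
`2 ≤ D`. There are constants `C k` such that for all `k`, all `2 ≤ L` and all `β` with
`C k L ^ (96 D + 288) ≤ β` the energy level number `k` of the lattice gauge theory in the cube
`{0, …, L - 1}^D` is the level number `k` of the colour singlets of the free gluon field on the
lattice, up to an error of at most `C k / (L log β)`. The latter level, in units of the inverse side
of the box, is the one of the free gluon field in the unit cube of the continuum up to an error of
at most `C k / L ^ 2`. If the Lie algebra has no nonzero vector which is fixed by `G` then the first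
of these levels, the mass gap, is `4 arsinh (√2 sin (π / (2 L)))`. -/
theorem result {N : ℕ} (G : Subgroup (UU N)) (hG : IsClosed (G : Set (UU N)))
    [MeasurableSpace G] [BorelSpace G] (μ : Measure G) [IsProbabilityMeasure μ] [μ.IsHaarMeasure]
    {n : ℕ} (hn : 0 < n) (X : Fin n → Mt N) (hX : IsBasis G X) (D : ℕ) (hD : 2 ≤ D) :
    (∃ C : ℕ → ℝ, ∀ k L : ℕ, 2 ≤ L → ∀ β : ℝ, C k * (L : ℝ) ^ (96 * D + 288) ≤ β →
      0 < eigenvalueSq D L μ β k ∧
      |energyLevel D L μ β k - freeLevel (frequency D L) (adjoint (G := G) X) k| ≤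
        C k / (L * Real.log β) ∧
      |L * freeLevel (frequency D L) (adjoint (G := G) X) k -
        freeLevel (continuumFrequency D) (adjoint (G := G) X) k| ≤ C k / L ^ 2) ∧
    ((∀ Y, IsLie G Y → (∀ g : G, mt g * Y * (mt g)ᴴ = Y) → Y = 0) → ∀ L : ℕ, 2 ≤ L →
      freeLevel (frequency D L) (adjoint (G := G) X) 1 =
        4 * Real.arsinh (Real.sqrt 2 * Real.sin (Real.pi / (2 * L)))) := by
  have : CompactSpace G := isCompact_iff_compactSpace.1 hG.isCompact
  have : SecondCountableTopology (Mt N) :=
    inferInstanceAs (SecondCountableTopology (Fin N → Fin N → ℂ))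
  have : SecondCountableTopology (UU N) := TopologicalSpace.Subtype.secondCountableTopology _
  have : SecondCountableTopology G := TopologicalSpace.Subtype.secondCountableTopology _
  obtain ⟨B, hB⟩ := exists_frame_of_basis hX
  have hadj : adjoint (G := G) X = Pool.Agent.T2H02.Gap.adm B := by
    rw [← hB]
    exact funext fun g => adjoint_eq B g
  rw [hadj]
  refine ⟨?_, fun hinv L hL => ?_⟩
  · choose C hC h using fun k => Pool.Agent.T2H02.Lev.lev_main hD B hn hG μ k
    choose C' hC' h' using fun k => Pool.Agent.T2H02.Lev.cont_lim (Pool.Agent.T2H02.Gap.adm B) hn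
      (Pool.Agent.T2H02.Gap.adm_mul B) (Pool.Agent.T2H02.Lev.adm_one B)
      (Pool.Agent.T2H02.Lev.adm_orth B) D hD k
    refine ⟨fun k => max (C k) (C' k), fun k L hL β hβ => ?_⟩
    have hL' : (2 : ℝ) ≤ L := by exact_mod_cast hL
    have hLp : (0 : ℝ) < (L : ℝ) ^ (96 * D + 288) := by positivity
    have hL1 : (1 : ℝ) ≤ (L : ℝ) ^ (96 * D + 288) := one_le_pow₀ (by linarith)
    have hβ1 : C k * (L : ℝ) ^ (96 * D + 288) ≤ β :=
      (mul_le_mul_of_nonneg_right (le_max_left _ _) hLp.le).trans hβ
    obtain ⟨h1, h2⟩ := h k L hL β hβ1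
    rw [energyLevel, eigenvalueSq_eq, eigenvalueSq_eq]
    have hβ2 : 1 ≤ β := by
      refine le_trans ?_ hβ1
      exact one_le_mul_of_one_le_of_one_le (hC k) hL1
    have hlog : 0 ≤ Real.log β := Real.log_nonneg hβ2
    refine ⟨h1, h2.trans ?_, (h' k L hL).trans ?_⟩
    · exact div_le_div_of_nonneg_right (le_max_left _ _) (by positivity)
    · exact div_le_div_of_nonneg_right (le_max_right _ _) (by positivity)
  · refine Pool.Agent.T2H02.Lev.flev_one hD B hn hG μ ?_ hL
    intro v hv
    have h1 : Pool.Agent.T2H02.Gap.lie B v = 0 := by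
      refine hinv _ (span_isLie hG B (Pool.Agent.T2H02.Gap.lie_mem B v)) fun g => ?_
      have h2 := Pool.Agent.T2H02.Gap.lie_adL B g v
      rw [hv g, Pool.Agent.T2H02.Gap.mt_inv_ct] at h2
      exact h2.symm
    exact lie_zero B v h1

end

end Pool.Agent.Results.MP_7f377f_mp.FiniteVolumeSpectrum
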