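import Mathlib
import Pool.Agent.T2H01.LN.Zeros
import Pool.Agent.TH618.YM.Cartan

/-!
# Lattice Yang-Mills theory at large `N`: a phase transition of the Wilson loops in every dimension

Wilson's lattice gauge theory on `ℤ^d`, `d ≥ 2`, with a closed gauge group `G` between `SU(N)` and
`U(N)` at the inverse coupling `β = N b`, in the infinite volume. The eigenvalues of the product of
the link variables around a rectangle of sides `R`, `T` lie in the arc
`|1 - z| ^ 2 < 240 (R T) ^ 2 / b` with probability at least `1 - R T exp (- N)`, so that for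
`b ≥ 240 (R T) ^ 2` the spectral distribution has a gap. On the other hand the Wilson loops obey a
perimeter law which is uniform in `N`, at every coupling, so that for loops of large perimeter, and
for all loops at small `b`, a positive proportion of the eigenvalues has real part less than `1/2`.
Hence in the limit `N → ∞` every rectangular Wilson loop has a phase transition, at a positive
critical coupling at which the proportion of these eigenvalues is not an analytic function of the
coupling. At each fixed weak coupling the transition occurs as the loop is enlarged. For large `N`,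
on every torus, the partition function with an arbitrarily weak insertion of one loop has zeros in
every connected open set of complex couplings which joins strong and weak coupling: the complete
analyticity of the strong coupling phase does not extend to weak coupling uniformly in `N`.
-/

open MeasureTheory Matrix Filter
open scoped Matrix.Norms.Frobenius Topology ContDiff

namespace Pool.Agent.Results.MP_7f377f_mp.LargeNTransition

set_option linter.unusedSectionVars false
set_option linter.unusedVariables false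

noncomputable section

/-- Complex `N × N` matrices. -/
abbrev Mt (N : ℕ) := Matrix (Fin N) (Fin N) ℂ

/-- The unitary group `U(N)`. -/
abbrev UU (N : ℕ) := Matrix.unitaryGroup (Fin N) ℂ

/-- The matrix of an element of a subgroup of `U(N)`. -/
def mt {N : ℕ} {G : Subgroup (UU N)} (g : G) : Mt N := ((g : UU N) : Mt N)

/-- `G` contains `SU(N)`. -/
def ContainsSU {N : ℕ} (G : Subgroup (UU N)) : Prop := ∀ U : UU N, (U : Mt N).det = 1 → U ∈ G

/-- Links of the periodic lattice `(ℤ/l)^d`: base point and direction. -/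
abbrev Link (d l : ℕ) := (Fin d → ZMod l) × Fin d

/-- Links of the lattice `ℤ^d`: base point and direction. -/
abbrev LinkZ (d : ℕ) := (Fin d → ℤ) × Fin d

section

variable {N n d l : ℕ} {G : Subgroup (UU N)}

/-- The product of the link variables around the plaquette at `x` in the directions `i`, `j`. -/
def plaq (U : Link d l → G) (x : Fin d → ZMod l) (i j : Fin d) : G :=
  U (x, i) * U (x + Pi.single i 1, j) * (U (x + Pi.single j 1, i))⁻¹ * (U (x, j))⁻¹

/-- The Wilson action `∑_p Re tr (1 - U_p)`, the sum over the plaquettes. -/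
def action [NeZero l] (U : Link d l → G) : ℝ :=
  ∑ x : Fin d → ZMod l, ∑ i : Fin d, ∑ j : Fin d,
    if i < j then (trace (1 - mt (plaq U x i j))).re else 0

/-- The periodic extension of a configuration. -/
def per (U : Link d l → G) : LinkZ d → G := fun e => U (fun i => (e.1 i : ZMod l), e.2)

/-- The expectation of `F` in the lattice Yang-Mills theory on `(ℤ/l)^d`, `μ` being the Haar
measure. -/
def expect (l : ℕ) [NeZero l] [MeasurableSpace G] (μ : Measure G) (β : ℝ)
    (F : (LinkZ d → G) → ℝ) : ℝ :=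
  (∫ U : Link d l → G, F (per U) * Real.exp (-(β * action U)) ∂(Measure.pi fun _ => μ)) /
    ∫ U : Link d l → G, Real.exp (-(β * action U)) ∂(Measure.pi fun _ => μ)

/-- `ν` is an infinite volume limit (weak limit along a subsequence) of the theories on the tori of
even side at inverse coupling `β`. -/
structure IsInfVol [MeasurableSpace G] (μ : Measure G) (β : ℝ)
    (ν : Measure (LinkZ d → G)) : Prop where
  prob : IsProbabilityMeasure ν
  lim : ∃ s : ℕ → ℕ, Tendsto s atTop atTop ∧ ∀ F : (LinkZ d → G) → ℝ, Continuous F →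
    Tendsto (fun j => expect (2 * (s j + 1)) μ β F) atTop (𝓝 (∫ V, F V ∂ν))

/-- The product of the link variables along the path of `k` steps in the direction `i` from `x`. -/
def line (V : LinkZ d → G) (i : Fin d) : ℕ → (Fin d → ℤ) → G
  | 0, _ => 1
  | k + 1, x => V (x, i) * line V i k (x + Pi.single i 1)

/-- The product of the link variables around the rectangle with corner `x` and with the sides `R`
in the direction `i` and `T` in the direction `j`. -/
def loop (V : LinkZ d → G) (x : Fin d → ℤ) (i j : Fin d) (R T : ℕ) : G :=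
  line V i R x * line V j T (x + Pi.single i (R : ℤ)) *
    (line V i R (x + Pi.single j (T : ℤ)))⁻¹ * (line V j T x)⁻¹

/-- The proportion of the eigenvalues (the roots of the characteristic polynomial, with their
multiplicities) which have real part less than `1/2`. -/
def low (A : Mt N) : ℝ := (A.charpoly.roots.countP fun z => z.re < 1 / 2 : ℕ) / N

/-- The expectation of `low` for the loop, as a lower integral. -/
def meanLow [MeasurableSpace G] (ν : Measure (LinkZ d → G)) (x : Fin d → ℤ) (i j : Fin d)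
    (R T : ℕ) : ℝ := (∫⁻ V, ENNReal.ofReal (low (mt (loop V x i j R T))) ∂ν).toReal

/-- The rate of the perimeter law at the coupling `b = β / N`. -/
def rate (d : ℕ) (b : ℝ) : ℝ :=
  min (12 * (d - 1) * b) (1 - 1 / (2 + 128 * ((d - 1) * b) ^ 2))

/-- **Weak coupling.** The eigenvalues of the loops of sides `R`, `T` are close to `1`:
`|1 - z| ^ 2 < 240 K (R T) ^ 2 / b` with probability at least `1 - R T exp (- K N)`. -/
def Edge [MeasurableSpace G] (b : ℝ) (ν : Measure (LinkZ d → G)) : Prop :=
  ∀ (x : Fin d → ℤ) (i j : Fin d), i ≠ j → ∀ R T : ℕ, 1 ≤ R → 1 ≤ T → ∀ K : ℝ, 1 ≤ K →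
    ν {V | ∃ z ∈ (mt (loop V x i j R T)).charpoly.roots,
      240 * K * (R * T) ^ 2 / b ≤ ‖1 - z‖ ^ 2} ≤ ENNReal.ofReal (R * T * Real.exp (-(K * N)))

/-- **Perimeter law.** The Wilson loop of sides `R`, `T` is at most `rate d b ^ max R T`, and the
expected proportion of the eigenvalues with real part less than `1/2` is at least
`(1 - 2 rate d b ^ max R T) / 3`. -/
def Spread [MeasurableSpace G] (b : ℝ) (ν : Measure (LinkZ d → G)) : Prop :=
  ∀ (x : Fin d → ℤ) (i j : Fin d), i ≠ j → ∀ R T : ℕ, 1 ≤ R → 1 ≤ T →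
    ∫ V, (trace (mt (loop V x i j R T))).re / N ∂ν ≤ rate d b ^ max R T ∧
      (1 - 2 * rate d b ^ max R T) / 3 ≤ meanLow ν x i j R T

/-- **The transition at `N = ∞`.** For every family of theories with `N → ∞`, one for each coupling,
along any filter, such that the expected proportion of the eigenvalues with real part less than
`1/2` converges for every coupling, the limit `g` vanishes beyond a critical coupling `bc > 0` at
which it is not analytic, where `bc ≤ 240 (R T) ^ 2` and `b ≤ bc` whenever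
`2 rate d b ^ max R T < 1`. -/
def Transition (d : ℕ) (x : Fin d → ℤ) (i j : Fin d) (R T : ℕ) : Prop :=
  ∀ (ι : Type) (F : Filter ι) [F.NeBot] (N : ι → ℕ) (G : ∀ k, Subgroup (UU (N k)))
    [∀ k, MeasurableSpace (G k)] [∀ k, BorelSpace (G k)] (μ : ∀ k, Measure (G k))
    [∀ k, IsProbabilityMeasure (μ k)] [∀ k, (μ k).IsHaarMeasure]
    (ν : ∀ k, ℝ → Measure (LinkZ d → G k)) (g : ℝ → ℝ),
    (∀ k, IsClosed (G k : Set (UU (N k)))) → (∀ k, ContainsSU (G k)) → Tendsto N F atTop →
    (∀ k b, 0 < b → IsInfVol (μ k) (N k * b) (ν k b)) →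
    (∀ b, 0 < b → Tendsto (fun k => meanLow (ν k b) x i j R T) F (𝓝 (g b))) →
    ∃ bc : ℝ, 0 < bc ∧ bc ≤ 240 * ((R : ℝ) * T) ^ 2 ∧
      (∀ b, 0 < b → 2 * rate d b ^ max R T < 1 → b ≤ bc) ∧
      (∀ b, bc < b → g b = 0) ∧ ¬AnalyticAt ℝ g bc

/-- The excess over `1` of the square of the operator norm of `1 - A`. -/
def far (A : Mt N) : ℝ := max 0 (‖Matrix.toEuclideanCLM (n := Fin N) (𝕜 := ℂ) (1 - A)‖ ^ 2 - 1)

/-- The partition function of the torus `(ℤ/l)^d` with the insertion of `1 + κ F` at the complex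
coupling `z = β / N`. -/
def part (l : ℕ) [NeZero l] [MeasurableSpace G] (μ : Measure G) (F : (LinkZ d → G) → ℝ)
    (z κ : ℂ) : ℂ :=
  ∫ U : Link d l → G, (1 + κ * F (per U)) * Complex.exp (-(N * z * action U))
    ∂(Measure.pi fun _ => μ)

/-- **Zeros.** If the connected open set `Ω` contains a strong coupling `b₀` and a weak coupling
`b₁`, then for all large `N` and on all tori of even side `l ≥ 4`, `l > R`, `l > T` the partition
function with the insertion of `1 + κ far (U_C)`, `C` being the loop of sides `R`, `T`, has a zero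
with `z ∈ Ω` and `|κ| < κ₀`. -/
def Zeros (d : ℕ) (x : Fin d → ℤ) (i j : Fin d) (R T : ℕ) : Prop :=
  ∀ (Ω : Set ℂ) (b₀ b₁ κ₀ : ℝ), IsOpen Ω → IsPreconnected Ω → 0 < b₀ →
    2 * rate d b₀ ^ max R T < 1 → (b₀ : ℂ) ∈ Ω → 240 * ((R : ℝ) * T) ^ 2 ≤ b₁ → (b₁ : ℂ) ∈ Ω →
    0 < κ₀ → ∃ N₀ : ℕ, ∀ N, N₀ ≤ N → ∀ (G : Subgroup (UU N)) [MeasurableSpace G] [BorelSpace G]
      (μ : Measure G) [IsProbabilityMeasure μ] [μ.IsHaarMeasure],
      IsClosed (G : Set (UU N)) → ContainsSU G → ∀ m : ℕ, R < 2 * (m + 2) → T < 2 * (m + 2) →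
      ∃ z ∈ Ω, ∃ κ : ℂ, ‖κ‖ < κ₀ ∧
        part (2 * (m + 2)) μ (fun V => far (mt (loop V x i j R T))) z κ = 0

end

open Pool.Agent.H906R3 Pool.Agent.W793 Pool.Agent.TH618 Pool.Agent.T2H01 Pool.Agent

variable {N n d l : ℕ} {G : Subgroup (UU N)}

/-- A Haar probability measure is invariant under right multiplications. -/
lemma right_inv {H : Type*} [Group H] [TopologicalSpace H] [IsTopologicalGroup H]
    [CompactSpace H] [MeasurableSpace H] [BorelSpace H] (μ : Measure H)
    [IsProbabilityMeasure μ] [μ.IsHaarMeasure] : μ.IsMulRightInvariant := by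
  refine ⟨fun g => ?_⟩
  have h1 : IsProbabilityMeasure (Measure.map (fun x => x * g) μ) :=
    Measure.isProbabilityMeasure_map (measurable_mul_const g).aemeasurable
  exact Measure.isHaarMeasure_eq_of_isProbabilityMeasure _ _

/-- A Haar probability measure is invariant under the inversion. -/
lemma inv_inv' {H : Type*} [Group H] [TopologicalSpace H] [IsTopologicalGroup H]
    [CompactSpace H] [MeasurableSpace H] [BorelSpace H] (μ : Measure H)
    [IsProbabilityMeasure μ] [μ.IsHaarMeasure] : μ.IsInvInvariant := by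
  have hr := right_inv μ
  refine ⟨?_⟩
  have h1 : IsProbabilityMeasure μ.inv :=
    Measure.isProbabilityMeasure_map measurable_inv.aemeasurable
  have h2 : μ.inv.IsMulLeftInvariant := inferInstance
  have h3 : μ.inv.IsHaarMeasure :=
    Measure.isHaarMeasure_of_isCompact_nonempty_interior μ.inv Set.univ isCompact_univ
      (by simp) (by simp) (by simp)
  exact Measure.isHaarMeasure_eq_of_isProbabilityMeasure _ _

section bridge

variable [CompactSpace G] [SecondCountableTopology G] [MeasurableSpace G] [BorelSpace G]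
  (μ : Measure G) [IsProbabilityMeasure μ] [μ.IsHaarMeasure] (B : YM.Frame G n)

lemma expect_eq [NeZero l] (β : ℝ) (F : (LinkZ d → G) → ℝ) : expect l μ β F =
    YM.EX μ B.toLD β (fun U : YM.Ed d l → G => F (YM.pe U)) := by
  unfold expect YM.EX YM.Zt
  simp only [one_mul]
  rfl

include B in
lemma action_cont [NeZero l] : Continuous (action : (Link d l → G) → ℝ) :=
  YM.act_cont (L := B.toLD)

lemma iv_of {β : ℝ} {ν : Measure (LinkZ d → G)} (hν : IsInfVol μ β ν) :
    YM.IV μ B.toLD β ν := by
  refine ⟨hν.prob, ?_⟩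
  obtain ⟨s, hs, hlim⟩ := hν.lim
  refine ⟨s, hs, fun F hF => (hlim F hF).congr fun j => expect_eq μ B β F⟩

lemma line_eq (V : LinkZ d → G) (i : Fin d) (k : ℕ) (x : Fin d → ℤ) :
    line V i k x = LN.lnZ V i k x := by
  induction k generalizing x with
  | zero => rfl
  | succ k ih =>
    show V (x, i) * line V i k _ = V (x, i) * LN.lnZ V i k _
    rw [ih]

lemma loop_eq (V : LinkZ d → G) (x : Fin d → ℤ) (i j : Fin d) (R T : ℕ) :
    loop V x i j R T = LN.lpZ V x i j R T := by
  unfold loop LN.lpZ
  rw [line_eq, line_eq, line_eq, line_eq]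

lemma low_eq (V : LinkZ d → G) (x : Fin d → ℤ) (i j : Fin d) (R T : ℕ) :
    low (mt (loop V x i j R T)) = (LN.cnt2 (B.toLD.rho (LN.lpZ V x i j R T)) : ℝ) / N := by
  rw [loop_eq]
  rfl

include B in
/-- existence of infinite volume limits -/
lemma exists_infVol (β : ℝ) : ∃ ν : Measure (LinkZ d → G), IsInfVol μ β ν := by
  have hP : ∀ j : ℕ, ∃ P : ProbabilityMeasure (LinkZ d → G),
      ∀ F : (LinkZ d → G) → ℝ, Continuous F →
        ∫ V, F V ∂(P : Measure (LinkZ d → G)) = expect (2 * (j + 1)) μ β F := by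
    intro j
    have hper : Continuous (per : (Link d (2 * (j + 1)) → G) → LinkZ d → G) :=
      continuous_pi fun e => continuous_apply _
    have hexp : Continuous fun U : Link d (2 * (j + 1)) → G =>
        Real.exp (-(β * action U)) :=
      Real.continuous_exp.comp (continuous_const.mul (action_cont B)).neg
    have hint : Integrable (fun U : Link d (2 * (j + 1)) → G =>
        Real.exp (-(β * action U))) (Measure.pi fun _ => μ) :=
      hexp.integrable_of_hasCompactSupport (HasCompactSupport.of_compactSpace _)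
    have h1 := isProbabilityMeasure_tilted (f := fun U : Link d (2 * (j + 1)) → G =>
      -(β * action U)) hint
    refine ⟨⟨((Measure.pi fun _ => μ).tilted fun U : Link d (2 * (j + 1)) → G =>
      -(β * action U)).map per, Measure.isProbabilityMeasure_map hper.aemeasurable⟩,
      fun F hF => ?_⟩
    show ∫ V, F V ∂(((Measure.pi fun _ => μ).tilted fun U : Link d (2 * (j + 1)) → G =>
      -(β * action U)).map per) = _
    rw [integral_map hper.aemeasurable hF.aestronglyMeasurable, integral_tilted]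
    unfold expect
    rw [← integral_div]
    refine integral_congr_ae (Filter.Eventually.of_forall fun U => ?_)
    simp only [smul_eq_mul]
    ring
  choose P hP using hP
  obtain ⟨ν, s, hs, hlim⟩ := CompactSpace.tendsto_subseq P
  refine ⟨ν, ⟨inferInstance, s, hs.tendsto_atTop, fun F hF => ?_⟩⟩
  have h1 := (ProbabilityMeasure.tendsto_iff_forall_integral_tendsto.1 hlim)
    (BoundedContinuousFunction.mkOfCompact ⟨F, hF⟩)
  simp only [Function.comp_apply, BoundedContinuousFunction.mkOfCompact_apply,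
    ContinuousMap.coe_mk] at h1
  simpa only [hP _ F hF] using h1

/-- the one-parameter groups of the off-diagonal generators -/
lemma gens (hSU : ContainsSU G) : ∀ q ∈ LN.gi N, ∃ c : ℝ → G, (∀ s t, c (s + t) = c s * c t) ∧
    HasDerivAt (fun t => B.toLD.rho (c t)) (LN.gen q) 0 := by
  intro q hq
  obtain ⟨⟨j, k⟩, b⟩ := q
  have hjk : j ≠ k := (Finset.mem_filter.1 hq).2
  refine ⟨fun t => ⟨⟨NormedSpace.exp (t • LN.gen ((j, k), b)),
    LN.exp_skew_unit (LN.gen_skew _) t⟩, hSU _ (LN.det_exp_gen hjk b t)⟩, fun s t => ?_, ?_⟩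
  · apply Subtype.ext
    apply Subtype.ext
    exact LN.exp_gen_mul _ s t
  · exact LN.exp_deriv _

end bridge

section main

/-- compactness and a frame -/
lemma setup (hG : IsClosed (G : Set (UU N))) : CompactSpace G ∧ SecondCountableTopology G ∧
    ∃ n, Nonempty (YM.Frame G n) := by
  have h0 : CompactSpace G := by
    have h1 : IsCompact (G : Set (UU N)) := hG.isCompact
    exact isCompact_iff_compactSpace.1 h1
  have h00 : SecondCountableTopology (UU N) := TopologicalSpace.Subtype.secondCountableTopology _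
  exact ⟨h0, TopologicalSpace.Subtype.secondCountableTopology _, YM.exists_frame hG⟩

variable [MeasurableSpace G] [BorelSpace G] (μ : Measure G) [IsProbabilityMeasure μ]
  [μ.IsHaarMeasure]

lemma edge_of (hG : IsClosed (G : Set (UU N))) {b : ℝ} (hb : 0 < b)
    {ν : Measure (LinkZ d → G)} (hν : IsInfVol μ (N * b) ν) : Edge b ν := by
  obtain ⟨h1, h2, n, ⟨B⟩⟩ := setup hG
  have := right_inv μ
  have := inv_inv' μ
  intro x i j hij R T hR hT K hK
  have h3 := LN.loop_gap μ hb (iv_of μ B hν) hij x hR hT hK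
  simp only [loop_eq]
  exact h3

lemma low_bound (hG : IsClosed (G : Set (UU N))) {b : ℝ} (hb : 0 < b)
    {ν : Measure (LinkZ d → G)} (hν : IsInfVol μ (N * b) ν) {i j : Fin d} (hij : i ≠ j)
    (x : Fin d → ℤ) {R T : ℕ} (hR : 1 ≤ R) (hT : 1 ≤ T) (hb1 : 240 * ((R : ℝ) * T) ^ 2 ≤ b) :
    meanLow ν x i j R T ≤ R * T * Real.exp (-N) := by
  obtain ⟨h1, h2, n, ⟨B⟩⟩ := setup hG
  have := right_inv μ
  have := inv_inv' μ
  have h3 := LN.loop_small μ hb (iv_of μ B hν) hij x hR hT hb1
  unfold meanLow
  simp only [low_eq B]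
  exact ENNReal.toReal_le_of_le_ofReal (by positivity) h3

lemma meanLow_nonneg (ν : Measure (LinkZ d → G)) (x : Fin d → ℤ) (i j : Fin d) (R T : ℕ) :
    0 ≤ meanLow ν x i j R T := ENNReal.toReal_nonneg

lemma spread_of (hG : IsClosed (G : Set (UU N))) (hSU : ContainsSU G) (hN : 2 ≤ N) {b : ℝ}
    (hb : 0 < b) {ν : Measure (LinkZ d → G)} (hν : IsInfVol μ (N * b) ν) : Spread b ν := by
  obtain ⟨h1, h2, n, ⟨B⟩⟩ := setup hG
  have := right_inv μ
  have := inv_inv' μ
  have hp := hν.prob
  have hN0 : (0 : ℝ) < N := by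
    have : 0 < N := by omega
    exact_mod_cast this
  intro x i j hij R T hR hT
  constructor
  · have h3 := LN.loop_perim μ hN (gens B hSU) hb.le (iv_of μ B hν) hij x hR hT
    rw [integral_div, div_le_iff₀ hN0]
    simp only [loop_eq]
    rw [mul_comm]
    exact h3
  · have h3 := LN.loop_nogap' μ hN (gens B hSU) hb.le (iv_of μ B hν) hij x hR hT
    unfold meanLow
    simp only [low_eq B]
    have hfin : ∫⁻ V, ENNReal.ofReal ((LN.cnt2 (B.toLD.rho (LN.lpZ V x i j R T)) : ℝ) / N) ∂ν
        ≠ ⊤ := by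
      have h4 : ∫⁻ V, ENNReal.ofReal ((LN.cnt2 (B.toLD.rho (LN.lpZ V x i j R T)) : ℝ) / N) ∂ν
          ≤ ∫⁻ _, 1 ∂ν := by
        refine lintegral_mono fun V => ENNReal.ofReal_le_one.2 ?_
        refine div_le_one_of_le₀ ?_ (Nat.cast_nonneg N)
        exact_mod_cast LN.cnt2_le _
      refine ne_top_of_le_ne_top ?_ h4
      rw [lintegral_one]
      exact measure_ne_top ν _
    exact (ENNReal.ofReal_le_iff_le_toReal hfin).1 h3

end main

lemma rate_small {d : ℕ} (hd : 2 ≤ d) {b : ℝ} (hb : 0 < b) (hb1 : b < 1 / (24 * d)) {r : ℕ}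
    (hr : 1 ≤ r) : 2 * rate d b ^ r < 1 := by
  have hd2 : (2 : ℝ) ≤ d := by exact_mod_cast hd
  have h0 : 0 ≤ rate d b := LN.rt_nonneg (by omega) hb.le
  have h1 : rate d b < 1 := LN.rt_lt_one d b
  have h2 : rate d b < 1 / 2 := by
    unfold rate
    refine (min_le_left _ _).trans_lt ?_
    have h3 : b * (24 * d) < 1 := by
      rwa [lt_div_iff₀ (by positivity)] at hb1
    nlinarith
  have h3 : rate d b ^ r ≤ rate d b ^ 1 := pow_le_pow_of_le_one h0 h1.le hr
  rw [pow_one] at h3
  linarith

lemma transition (d : ℕ) (x : Fin d → ℤ) {i j : Fin d} (hij : i ≠ j) {R T : ℕ} (hR : 1 ≤ R)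
    (hT : 1 ≤ T) : Transition d x i j R T := by
  intro ι F _ N G _ _ μ _ _ ν g hG hSU hN hν hlim
  have hd : 2 ≤ d := by
    have h1 := i.2
    have h2 := j.2
    have h3 : (i : ℕ) ≠ j := fun h => hij (Fin.ext h)
    omega
  have hRT : (0 : ℝ) < R * T := by
    have : (0 : ℝ) < R := by exact_mod_cast hR
    have : (0 : ℝ) < T := by exact_mod_cast hT
    positivity
  have hd0 : (0 : ℝ) < d := by
    have : 0 < d := by omega
    exact_mod_cast this
  have hlow : ∀ b, 0 < b → (1 - 2 * rate d b ^ max R T) / 3 ≤ g b := by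
    intro b hb
    refine ge_of_tendsto (hlim b hb) ?_
    filter_upwards [hN.eventually_ge_atTop 2] with k hk
    exact (spread_of (μ k) (hG k) (hSU k) hk hb (hν k b hb) x i j hij R T hR hT).2
  have hzero : ∀ b, 240 * ((R : ℝ) * T) ^ 2 ≤ b → g b = 0 := by
    intro b hb
    have hb0 : 0 < b := lt_of_lt_of_le (by positivity) hb
    have h1 : Tendsto (fun k => (R : ℝ) * T * Real.exp (-(N k : ℝ))) F (𝓝 (R * T * 0)) := by
      refine Tendsto.const_mul _ ?_
      have h2 : Tendsto (fun k => ((N k : ℕ) : ℝ)) F atTop :=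
        tendsto_natCast_atTop_atTop.comp hN
      exact Real.tendsto_exp_neg_atTop_nhds_zero.comp h2
    rw [mul_zero] at h1
    have h3 := le_of_tendsto_of_tendsto (hlim b hb0) h1 (Eventually.of_forall fun k =>
      low_bound (μ k) (hG k) hb0 (hν k b hb0) hij x hR hT hb)
    have h4 := ge_of_tendsto (hlim b hb0) (Eventually.of_forall fun k =>
      meanLow_nonneg (ν k b) x i j R T)
    exact le_antisymm h3 h4
  obtain ⟨bc, h1, h2, h3, h4⟩ := LN.crit (g := g) (b0 := 1 / (24 * d))
    (b1 := 240 * ((R : ℝ) * T) ^ 2) (by positivity) (by positivity) (fun b hb hb1 => by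
      have h5 := hlow b hb
      have h6 := rate_small hd hb hb1 (r := max R T) (le_max_of_le_left hR)
      have : 0 < g b := lt_of_lt_of_le (by linarith) h5
      exact this.ne') hzero
  refine ⟨bc, lt_of_lt_of_le (by positivity) h1, h2, fun b hb hb1 => ?_, h3, h4⟩
  by_contra hlt
  push Not at hlt
  have h5 := h3 b hlt
  have h6 := hlow b hb
  rw [h5] at h6
  linarith

lemma zeros (d : ℕ) (x : Fin d → ℤ) {i j : Fin d} (hij : i ≠ j) {R T : ℕ} (hR : 1 ≤ R)
    (hT : 1 ≤ T) : Zeros d x i j R T := by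
  intro Ω b₀ b₁ κ₀ hΩ hΩc hb₀ hrate hb₀Ω hb₁ hb₁Ω hκ₀
  have hRT : (0 : ℝ) < R * T := by
    have : (0 : ℝ) < R := by exact_mod_cast hR
    have : (0 : ℝ) < T := by exact_mod_cast hT
    positivity
  by_contra hcon
  push Not at hcon
  have h1 : ∀ k : ℕ, ∃ h : ℂ → ℂ, DifferentiableOn ℂ h Ω ∧ (∀ z ∈ Ω, ‖h z‖ ≤ 1 / κ₀) ∧
      (∀ b : ℝ, b₁ ≤ b → (b : ℂ) ∈ Ω → ‖h b‖ ≤ 3 * (R * T * Real.exp (-(k : ℝ)))) ∧
      1 - 2 * rate d b₀ ^ max R T ≤ ‖h b₀‖ := by
    intro k
    obtain ⟨N, hN, G, _, _, μ, _, _, hG, hSU, m, hRm, hTm, hz⟩ := hcon (k + 2)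
    obtain ⟨c1, c2, n, ⟨B⟩⟩ := setup hG
    have := right_inv μ
    have := inv_inv' μ
    obtain ⟨f, hf⟩ : ∃ f : (YM.Ed d (2 * (m + 2)) → G) → ℝ, f = fun U =>
      LN.far (B.toLD.rho (LN.lpZ (YM.pe U) x i j R T)) := ⟨_, rfl⟩
    have hpe : Continuous (YM.pe : (YM.Ed d (2 * (m + 2)) → G) → YM.LZ d → G) :=
      continuous_pi fun e => continuous_apply _
    have hfc : Continuous f := by
      rw [hf]
      exact LN.far_cont.comp (B.toLD.cont.comp ((LN.lpZ_cont x i j R T).comp hpe))
    have hac : Continuous (YM.act B.toLD : (YM.Ed d (2 * (m + 2)) → G) → ℝ) := YM.act_cont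
    have hpart : ∀ z κ : ℂ, part (2 * (m + 2)) μ (fun V => far (mt (loop V x i j R T))) z κ =
        LN.Zc μ B.toLD (fun _ : YM.Ed d (2 * (m + 2)) → G => (1 : ℝ)) z +
          κ * LN.Zc μ B.toLD f z := by
      intro z κ
      have e1 : ∀ U : Link d (2 * (m + 2)) → G,
          (1 + κ * ((far (mt (loop (per (l := 2 * (m + 2)) U) x i j R T)) : ℝ) : ℂ)) *
            Complex.exp (-(N * z * ((action (l := 2 * (m + 2)) U : ℝ) : ℂ))) =
          ((1 : ℝ) : ℂ) * Complex.exp (-(N * z *
            ((YM.act (d := d) (l := 2 * (m + 2)) B.toLD U : ℝ) : ℂ))) +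
            κ * ((f U : ℂ) * Complex.exp (-(N * z *
              ((YM.act (d := d) (l := 2 * (m + 2)) B.toLD U : ℝ) : ℂ)))) := by
        intro U
        have e2 : far (mt (loop (per (l := 2 * (m + 2)) U) x i j R T)) = f U := by
          rw [loop_eq, hf]
          rfl
        have e3 : action (l := 2 * (m + 2)) U = YM.act (d := d) (l := 2 * (m + 2)) B.toLD U := rfl
        rw [e2, e3]
        push_cast
        ring
      have hce : Continuous fun U : YM.Ed d (2 * (m + 2)) → G =>
          Complex.exp (-(N * z * (YM.act B.toLD U : ℝ))) :=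
        Complex.continuous_exp.comp (continuous_const.mul
          (Complex.continuous_ofReal.comp hac)).neg
      unfold part LN.Zc
      rw [integral_congr_ae (Eventually.of_forall e1), integral_add]
      · congr 1
        exact integral_const_mul _ _
      · exact (continuous_const.mul hce).integrable_of_hasCompactSupport
          (HasCompactSupport.of_compactSpace _)
      · exact (continuous_const.mul ((Complex.continuous_ofReal.comp hfc).mul
          hce)).integrable_of_hasCompactSupport (HasCompactSupport.of_compactSpace _)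
    have hZ : ∀ z ∈ Ω, LN.Zc μ B.toLD (fun _ : YM.Ed d (2 * (m + 2)) → G => 1) z ≠ 0 := by
      intro z hzΩ
      have h2 := hz z hzΩ 0 (by rw [norm_zero]; exact hκ₀)
      rwa [hpart, zero_mul, add_zero] at h2
    have hreal : ∀ b : ℝ, LN.Zc μ B.toLD f b /
        LN.Zc μ B.toLD (fun _ : YM.Ed d (2 * (m + 2)) → G => 1) b =
        ((YM.EX μ B.toLD (N * b) f : ℝ) : ℂ) := by
      intro b
      rw [LN.Zc_real, LN.Zc_real]
      unfold YM.EX
      push_cast
      rfl
    have hnn : ∀ b : ℝ, 0 ≤ YM.EX μ B.toLD (N * b) f := by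
      intro b
      unfold YM.EX
      refine div_nonneg (YM.Zt_nonneg μ fun U => ?_) (YM.Zt_pos μ _).le
      rw [hf]
      exact LN.far_nonneg _
    refine ⟨fun z => LN.Zc μ B.toLD f z /
      LN.Zc μ B.toLD (fun _ : YM.Ed d (2 * (m + 2)) → G => 1) z, ?_, ?_, ?_, ?_⟩
    · exact ((LN.Zc_diff μ hfc).differentiableOn).div
        ((LN.Zc_diff μ continuous_const).differentiableOn) hZ
    · intro z hzΩ
      by_contra hlt
      push Not at hlt
      obtain ⟨w, hw⟩ : ∃ w, w = LN.Zc μ B.toLD f z /
        LN.Zc μ B.toLD (fun _ : YM.Ed d (2 * (m + 2)) → G => 1) z := ⟨_, rfl⟩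
      rw [← hw] at hlt
      have hw0 : 0 < ‖w‖ := lt_trans (by positivity) hlt
      have hwne : w ≠ 0 := norm_pos_iff.1 hw0
      refine hz z hzΩ (-w⁻¹) ?_ ?_
      · rw [norm_neg, norm_inv]
        rw [div_lt_iff₀ hκ₀] at hlt
        rw [inv_lt_iff_one_lt_mul₀ hw0]
        linarith
      · rw [hpart]
        have h2 : LN.Zc μ B.toLD f z =
            w * LN.Zc μ B.toLD (fun _ : YM.Ed d (2 * (m + 2)) → G => 1) z := by
          rw [hw, div_mul_cancel₀ _ (hZ z hzΩ)]
        rw [h2, ← mul_assoc, neg_mul, inv_mul_cancel₀ hwne]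
        ring
    · intro b hb hbΩ
      simp only
      rw [hreal, Complex.norm_real, Real.norm_of_nonneg (hnn b), hf]
      refine (LN.far_weak μ (L := B.toLD) (by omega) hij x hR hT (hb₁.trans hb)).trans ?_
      refine mul_le_mul_of_nonneg_left (mul_le_mul_of_nonneg_left (Real.exp_le_exp.2 ?_) hRT.le)
        (by norm_num)
      have : (k : ℝ) ≤ N := by
        have : k ≤ N := by omega
        exact_mod_cast this
      linarith
    · simp only
      rw [hreal, Complex.norm_real, Real.norm_of_nonneg (hnn b₀), hf]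
      exact LN.far_strong μ (by omega) (gens B hSU) (by omega) hb₀.le hij x hR hRm hT hTm
  choose h hd hM hw hs using h1
  have h2 := LN.vitali hΩ hΩc hd hM hb₁Ω (fun b hb hbΩ => by
    rw [tendsto_zero_iff_norm_tendsto_zero]
    have h3 : Tendsto (fun m : ℕ => 3 * ((R : ℝ) * T * Real.exp (-(m : ℝ)))) atTop
        (𝓝 (3 * (R * T * 0))) := by
      refine Tendsto.const_mul _ (Tendsto.const_mul _ ?_)
      exact Real.tendsto_exp_neg_atTop_nhds_zero.comp tendsto_natCast_atTop_atTop
    rw [mul_zero, mul_zero] at h3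
    exact squeeze_zero (fun m => norm_nonneg _) (fun m => hw m b hb hbΩ) h3) hb₀Ω
  rw [tendsto_zero_iff_norm_tendsto_zero] at h2
  have h3 := ge_of_tendsto h2 (Eventually.of_forall hs)
  linarith

theorem result (d : ℕ) :
    (∀ (N : ℕ) (G : Subgroup (UU N)) [MeasurableSpace G] [BorelSpace G] (μ : Measure G)
      [IsProbabilityMeasure μ] [μ.IsHaarMeasure] (b : ℝ), IsClosed (G : Set (UU N)) → 0 < b →
      (∃ ν : Measure (LinkZ d → G), IsInfVol μ (N * b) ν) ∧
      ∀ ν : Measure (LinkZ d → G), IsInfVol μ (N * b) ν →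
        Edge b ν ∧ (2 ≤ N → ContainsSU G → Spread b ν)) ∧
    ∀ (x : Fin d → ℤ) (i j : Fin d), i ≠ j → ∀ R T : ℕ, 1 ≤ R → 1 ≤ T →
      Transition d x i j R T ∧ Zeros d x i j R T := by
  refine ⟨fun N G _ _ μ _ _ b hG hb => ⟨?_, fun ν hν => ⟨edge_of μ hG hb hν,
    fun hN hSU => spread_of μ hG hSU hN hb hν⟩⟩, fun x i j hij R T hR hT =>
      ⟨transition d x hij hR hT, zeros d x hij hR hT⟩⟩
  obtain ⟨h1, h2, n, ⟨B⟩⟩ := setup hG
  exact exists_infVol μ B _

end

end Pool.Agent.Results.MP_7f377f_mp.LargeNTransition
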